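import Pool.Agent.Helper98.EQ.Goals

/-!
Packet EQ-TEN (project EQ, MP_5b9a11_al): tensor products of matrices.
-/

set_option autoImplicit false
set_option linter.unusedSectionVars false

namespace Pool.Agent.Helper13.EQ.TEN

open Pool.Agent.Helper98.EQ

variable {A n R : Type} [Fintype A] [DecidableEq A] [Fintype n] [DecidableEq n] [CommRing R]

theorem sum_prod (F : A → n → R) : ∑ w : A → n, ∏ a, F a (w a) = ∏ a, ∑ t, F a t := by
  rw [Finset.prod_univ_sum, Fintype.piFinset_univ]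

theorem mul_tn (f g : A → Matrix n n R) : tn f * tn g = tn fun a => f a * g a := by
  ext x y
  rw [Matrix.mul_apply]
  show ∑ w : A → n, (∏ a, f a (x a) (w a)) * (∏ a, g a (w a) (y a)) = ∏ a, (f a * g a) (x a) (y a)
  simp_rw [← Finset.prod_mul_distrib]
  rw [sum_prod fun a t => f a (x a) t * g a t (y a)]
  refine Finset.prod_congr rfl fun a _ => ?_
  rw [Matrix.mul_apply]

theorem one_tn : tn (fun _ : A => (1 : Matrix n n R)) = 1 := by
  ext x y
  show ∏ a, (1 : Matrix n n R) (x a) (y a) = _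
  rw [Matrix.one_apply]
  by_cases h : x = y
  · subst h
    rw [if_pos rfl]
    exact Finset.prod_eq_one fun a _ => Matrix.one_apply_eq _
  · rw [if_neg h]
    obtain ⟨a, ha⟩ := Function.ne_iff.1 h
    exact Finset.prod_eq_zero (Finset.mem_univ a) (Matrix.one_apply_ne ha)

theorem smul_tn (c : A → R) (f : A → Matrix n n R) :
    (tn fun a => c a • f a) = (∏ a, c a) • tn f := by
  ext x y
  show ∏ a, (c a • f a) (x a) (y a) = (∏ a, c a) * ∏ a, f a (x a) (y a)
  rw [← Finset.prod_mul_distrib]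
  rfl

theorem trace_tn (f : A → Matrix n n R) : (tn f).trace = ∏ a, (f a).trace := by
  show ∑ x : A → n, ∏ a, f a (x a) (x a) = ∏ a, ∑ t, f a t t
  exact sum_prod fun a t => f a t t

theorem pm_iff (g : Equiv.Perm A) (x y : A → n) :
    (∀ a, x a = y (g⁻¹ a)) ↔ y = fun a => x (g a) := by
  constructor
  · intro h
    funext a
    exact ((h (g a)).trans (congrArg y (g.symm_apply_apply a))).symm
  · intro h a
    rw [h]
    exact (congrArg x (g.apply_symm_apply a)).symm

theorem pm_iff' (g : Equiv.Perm A) (x y : A → n) :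
    (∀ a, x a = y (g⁻¹ a)) ↔ x = fun a => y (g⁻¹ a) :=
  ⟨fun h => funext h, fun h a => congrFun h a⟩

theorem pm_mul_apply (g : Equiv.Perm A) (M : Matrix (A → n) (A → n) R) (x y : A → n) :
    (pm (n := n) R g * M) x y = M (fun a => x (g a)) y := by
  rw [Matrix.mul_apply, Finset.sum_eq_single (fun a => x (g a))]
  · show (if ∀ a, x a = (fun a => x (g a)) (g⁻¹ a) then (1 : R) else 0) * _ = _
    rw [if_pos ((pm_iff g x _).2 rfl), one_mul]
  · intro w _ hw
    show (if ∀ a, x a = w (g⁻¹ a) then (1 : R) else 0) * _ = _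
    rw [if_neg fun h => hw ((pm_iff g x w).1 h), zero_mul]
  · intro h
    exact absurd (Finset.mem_univ _) h

theorem mul_pm_apply (g : Equiv.Perm A) (M : Matrix (A → n) (A → n) R) (x y : A → n) :
    (M * pm (n := n) R g) x y = M x (fun a => y (g⁻¹ a)) := by
  rw [Matrix.mul_apply, Finset.sum_eq_single (fun a => y (g⁻¹ a))]
  · show _ * (if ∀ a, (fun a => y (g⁻¹ a)) a = y (g⁻¹ a) then (1 : R) else 0) = _
    rw [if_pos fun a => rfl, mul_one]
  · intro w _ hw
    show _ * (if ∀ a, w a = y (g⁻¹ a) then (1 : R) else 0) = _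
    rw [if_neg fun h => hw ((pm_iff' g w y).1 h), mul_zero]
  · intro h
    exact absurd (Finset.mem_univ _) h

theorem pm_mul (g h : Equiv.Perm A) : pm (n := n) R (g * h) = pm R g * pm R h := by
  ext x y
  rw [pm_mul_apply]
  show (if ∀ a, x a = y ((g * h)⁻¹ a) then (1 : R) else 0) =
    if ∀ a, x (g a) = y (h⁻¹ a) then (1 : R) else 0
  have e : (∀ a, x a = y ((g * h)⁻¹ a)) ↔ ∀ a, x (g a) = y (h⁻¹ a) := by
    rw [pm_iff, pm_iff h (fun a => x (g a)) y]
    rfl
  by_cases h1 : ∀ a, x a = y ((g * h)⁻¹ a)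
  · rw [if_pos h1, if_pos (e.1 h1)]
  · rw [if_neg h1, if_neg fun h2 => h1 (e.2 h2)]

theorem pm_one : pm (A := A) (n := n) R 1 = 1 := by
  ext x y
  show (if ∀ a, x a = y ((1 : Equiv.Perm A)⁻¹ a) then (1 : R) else 0) = _
  rw [Matrix.one_apply]
  have e : (∀ a, x a = y ((1 : Equiv.Perm A)⁻¹ a)) ↔ x = y := by
    rw [inv_one]
    exact ⟨fun h => funext h, fun h a => congrFun h a⟩
  by_cases h : x = y
  · rw [if_pos h, if_pos (e.2 h)]
  · rw [if_neg h, if_neg fun h2 => h (e.1 h2)]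

theorem pm_tn (g : Equiv.Perm A) (f : A → Matrix n n R) :
    pm R g * tn f = tn (fun a => f (g⁻¹ a)) * pm R g := by
  ext x y
  rw [pm_mul_apply, mul_pm_apply]
  show ∏ a, f a (x (g a)) (y a) = ∏ a, f (g⁻¹ a) (x a) (y (g⁻¹ a))
  rw [← Equiv.prod_comp g fun a => f (g⁻¹ a) (x a) (y (g⁻¹ a))]
  refine Finset.prod_congr rfl fun a _ => ?_
  have e : g⁻¹ (g a) = a := g.symm_apply_apply a
  rw [e]

/-- packet EQ-TEN -/
theorem t : S_TEN := by
  intro A n R _ _ _ _ _
  exact ⟨mul_tn, one_tn, smul_tn, trace_tn, pm_mul, pm_one, pm_tn⟩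

end Pool.Agent.Helper13.EQ.TEN
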